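import Mathlib
import Pool.Agent.TH949.TX.Sph

/-!
# Spherical cusp forms on `PGL_n`: bounds towards Ramanujan at all places from one sequence of scales

Let `n ≥ 2` and let `φ` be a spherical cusp form on `PGL_n` over `ℚ`, with Satake parameters `α_{i,p}`, Langlands
parameters `μ_i` at the real place and Hecke eigenvalues `λ(p) = ∑_i α_{i,p}`. Recall
`θ_{φ,p} = max_i |log_p |α_{i,p}||` and `θ_{φ,∞} = max_i |Re μ_i|`. We show: if for some `c ≥ 1/2` and `δ > 0` there are
arbitrarily large `X` such that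

  `∑_{X^{1-δ} ≤ p ≤ X} max(0, 1 - |λ(p)|²) < X^c`

(for example: such that fewer than `X^c` primes `p ∈ [X^{1-δ}, X]` have `|λ(p)| < 1`), then **`θ_{φ,v} ≤ c / 2` at every
place `v ≤ ∞`**, and all zeros and poles of `L(s, π × π~) / ζ(s)` have real part `≤ c`. If `n ≤ 3`, the same conclusion
holds if there are arbitrarily large `X` such that `π_p` is tempered for fewer than `X^c` primes `p ≤ X` (in this case
necessarily `c ≥ 1/2`).

In other words: let `b(φ)` be the least upper bound of `1/2`, of the numbers `2 θ_{φ,v}`, `v ≤ ∞`, and of the real parts of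
the zeros and poles of `L(s, π × π~) / ζ(s)`. A strong violation of the Ramanujan conjecture at one place,
`θ_{φ,v} > 1/4`, forces **for all large `X`** at least `X^c` primes `p ∈ [X^{1-δ}, X]` with `|λ(p)| < 1`, `c < b(φ)`
(for `n = 3`: tempered primes).

`SmallEigenvaluesControl` of this run has the hypothesis that the series `∑_p max(0, 1 - |λ(p)|²) p^{-c}` converges, or
that there are at most `C x^c` primes `p ≤ x` with `|λ(p)| < 1` for **all** large `x`: a fact on `φ` at all scales; here
one unbounded sequence of intervals is enough. (By Landau's lemma, results on the series say nothing about a given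
interval.) The general theorem for ramified representations of `GL_n`, in the form of a lower bound at every scale, is
`MP_08cfa9_nt.TemperedEveryScale`.

The structure `SphericalCuspForm` lists what is used of `φ`: the local components are unitary; the Rankin-Selberg
series converges absolutely for `Re s > 1`; `L(s, π × π~)` is entire except for a simple pole at `s = 1`, of polynomial
growth in vertical strips, and it satisfies the functional equation (Jacquet, Piatetski-Shapiro, Shalika; Moeglin,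
Waldspurger). Nothing is assumed of `L(s, π × π~) / ζ(s)` at the zeros of `ζ`.

The proof: let `F(s) = L(s, π × π~) / ζ(s)`, `log F(s) = ∑ d(q) q^{-s}`, so that `d(p^k) = (|∑_i α_{i,p}^k|² - 1) / k`.
The Gamma factors force a zero of `F` at `2 θ_{φ,∞}`, and a zero at `2 θ_{φ,p}` once the Euler factor at `p` is removed.
The explicit formula for `∑ d(q) (log q) q^{-s} exp(-(log q - Y)² / 4 η Y)` is used at a real point slightly to the
left of the rightmost singularities (zeros or poles), where all terms from singularities are small or have a favourable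
sign (`F` has no real poles in `s ≥ 1/2`), and, unless the rightmost singularity is real, at a point close to a
singularity and such that a single term dominates. Hence the negative `d(q)`, with `log q` close to `Y`, contribute, for
every large `Y`; the prime powers do not matter as `c ≥ 1/2`.
-/

set_option autoImplicit false

namespace Pool.Agent.Results.MP_fa98d2_nt.EveryScale

open Pool.Agent.TH949.RES (SphericalCuspForm)
open Pool.Agent.TH949.TX (ZeroPole sph_all)

open scoped Classical in
/-- **Bounds towards Ramanujan at all places from one sequence of scales.** -/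
theorem result {n : ℕ} (hn : 2 ≤ n) (α : Nat.Primes → Fin n → ℂ) (μ : Fin n → ℂ) (h : SphericalCuspForm α μ)
    (c δ : ℝ) (hδ : 0 < δ)
    (hX : (1 / 2 ≤ c ∧ ∀ X₀ : ℝ, ∃ X : ℝ, X₀ ≤ X ∧ (∑' p : Nat.Primes,
        if X ^ (1 - δ) ≤ ((p : ℕ) : ℝ) ∧ ((p : ℕ) : ℝ) ≤ X then max 0 (1 - ‖∑ i, α p i‖ ^ 2) else 0) < X ^ c) ∨
      (n ≤ 3 ∧ ∀ X₀ : ℝ, ∃ X : ℝ, X₀ ≤ X ∧
        (({p : Nat.Primes | ((p : ℕ) : ℝ) ≤ X ∧ ∀ i, ‖α p i‖ = 1}.ncard : ℕ) : ℝ) < X ^ c)) :
    1 / 2 ≤ c ∧ (∀ (p : Nat.Primes) (i : Fin n), |Real.logb ((p : ℕ) : ℝ) ‖α p i‖| ≤ c / 2) ∧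
      (∀ i, |(μ i).re| ≤ c / 2) ∧ ¬ ZeroPole α c := by
  have key : ¬ (c < 1 / 2 ∧ n ≤ 3 ∨ (∃ (p : Nat.Primes) (i : Fin n), c < 2 * |Real.logb ((p : ℕ) : ℝ) ‖α p i‖|) ∨
      (∃ i, c < 2 * |(μ i).re|) ∨ ZeroPole α c) := by
    intro hcon
    have hc' : c < 1 / 2 ∨ (∃ (p : Nat.Primes) (i : Fin n), c < 2 * |Real.logb ((p : ℕ) : ℝ) ‖α p i‖|) ∨
        (∃ i, c < 2 * |(μ i).re|) ∨ ZeroPole α c := by
      rcases hcon with h1 | h1
      · exact Or.inl h1.1
      · exact Or.inr h1
    obtain ⟨-, h2, h3⟩ := sph_all hn h hc' hδ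
    rcases hX with ⟨hc2, hX⟩ | ⟨hn3, hX⟩
    · obtain ⟨X₀, hX₀⟩ := Filter.eventually_atTop.1 (h2 hc2)
      obtain ⟨X, hX1, hX2⟩ := hX X₀
      exact absurd hX2 (not_lt.2 (hX₀ X hX1))
    · obtain ⟨X₀, hX₀⟩ := Filter.eventually_atTop.1 (h3 hn3)
      obtain ⟨X, hX1, hX2⟩ := hX X₀
      exact absurd hX2 (not_lt.2 (hX₀ X hX1))
  rw [not_or, not_or, not_or] at key
  obtain ⟨k1, k2, k3, k4⟩ := key
  refine ⟨?_, fun p i => ?_, fun i => ?_, k4⟩
  · rcases hX with ⟨hc2, -⟩ | ⟨hn3, -⟩
    · exact hc2
    · by_contra h1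
      exact k1 ⟨not_le.1 h1, hn3⟩
  · by_contra h1
    exact k2 ⟨p, i, by linarith [not_le.1 h1]⟩
  · by_contra h1
    exact k3 ⟨i, by linarith [not_le.1 h1]⟩

end Pool.Agent.Results.MP_fa98d2_nt.EveryScale
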