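import Mathlib
import Pool.Agent.TH949.UL.PGL

/-!
# Spherical cusp forms on `PGL_n`: the least prime power with a small trace, the least tempered prime

Let `n ≥ 2` and let `φ` be a spherical cusp form on `PGL_n` over `ℚ`, with Satake parameters `α_{i,p}` and Langlands
parameters `μ_i` at the real place. We show: for every `ε > 0` there is a constant `A` depending only on `n` and `ε`
such that for every such `φ` there are a prime `p` and `k ≥ 1` with

  `p^k ≤ A C^{1+ε}`, `C = ∏_{i,j} (1 + |μ_i - μ_j|)`, and `|α_{1,p}^k + ... + α_{n,p}^k| < 1`.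

If `n = 2` or `n = 3`, `π_p` is tempered at this `p`, i.e. `θ_{φ,p} = 0`: the least tempered prime is at most
`A C^{1+ε}`, uniformly in `φ`. The known results (infinitely many tempered primes, and bounds for their number, e.g.
`SmallEigenvaluesControl`) are for a fixed `φ` and say nothing about the first one.

The structure `SphericalCuspForm` lists what is used of `φ` besides the bounds of Jacquet and Shalika
`|α_{i,p}| < p^{1/2}` and `|Re μ_i| < 1/2`: the local components are unitary; the Rankin-Selberg series converges
absolutely for `Re s > 1`; `L(s, π × π~)` is entire except for a simple pole at `s = 1`, of polynomial growth in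
vertical strips (not assumed to be uniform in `φ`), and it satisfies the functional equation. Nothing is assumed of
the adjoint `L`-function: the quotient `F(s) = L(s, π × π~) / ζ(s)` may have poles at the zeros of `ζ`.

The proof is a uniform version of Landau's theorem for `F`. If `|∑_i α_{i,p}^k| ≥ 1` whenever `p^k ≤ X`, the
coefficients of `F(s) = ∑ c_m m^{-s}` with `m ≤ X` are nonnegative. Let `V` be a nonnegative kernel whose Mellin
transform vanishes at the points `ρ + 3/2`, `ρ` running through the zeros of `ζ` of bounded height; it exists since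
`ζ` has no zeros in `(0, 1)`. The smoothed sum `∑ c_m m^{-s} V(log (Y / m))` is at `s = -3/2 + i t` at most what it is
at `s = -3/2` (up to the terms `m > X`, which are small for `X = Y^{1+ε}`), and shifting the line of integration
this contradicts the functional equation for some bounded `t`, chosen away from the `Im (μ_i - μ_j)`, if `Y ≥ A C`.
-/

set_option autoImplicit false

namespace Pool.Agent.Results.MP_fa98d2_nt.LeastSmallTrace

open Pool.Agent.TH949.RES

/-- **The least small trace, and the least tempered prime for `n ≤ 3`, of a spherical cusp form on `PGL_n`.** -/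
theorem result {n : ℕ} (hn : 2 ≤ n) {ε : ℝ} (hε : 0 < ε) :
    ∃ A : ℝ, 0 < A ∧ ∀ (α : Nat.Primes → Fin n → ℂ) (μ : Fin n → ℂ), SphericalCuspForm α μ →
      (∀ (p : Nat.Primes) i, ‖α p i‖ < ((p : ℕ) : ℝ) ^ (1 / 2 : ℝ)) → (∀ i, |(μ i).re| < 1 / 2) →
      ∃ (p : Nat.Primes) (k : ℕ), 1 ≤ k ∧
        ((p : ℕ) : ℝ) ^ k ≤ A * (∏ i, ∏ j, (1 + ‖μ i - μ j‖)) ^ (1 + ε) ∧ ‖∑ i, α p i ^ k‖ < 1 ∧
        (n ≤ 3 → ∀ i, ‖α p i‖ = 1) :=
  Pool.Agent.TH949.UL.pgl_least hn hε

end Pool.Agent.Results.MP_fa98d2_nt.LeastSmallTrace
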