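import Mathlib
import Pool.Agent.TH949.RES.PGL4

/-!
# Spherical cusp forms on `PGL_n`: violations of Ramanujan force many small Hecke eigenvalues

Let `n ≥ 2` and let `φ` be a spherical cusp form on `PGL_n` over `ℚ`, with Satake parameters `α_{i,p}`, Langlands
parameters `μ_i` at the real place, and Hecke eigenvalues `λ(p) = ∑_i α_{i,p}`. Recall
`θ_{φ,p} = max_i |log_p |α_{i,p}||` and `θ_{φ,∞} = max_i |Re μ_i|`. We show: for every real

  `c < max (n² / (2 n² - 1), 2 sup_{v ≤ ∞} θ_{φ,v})`

* the series `∑_p max(0, 1 - |λ(p)|²) p^{-c}` diverges;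
* the number of the primes `p ≤ x` with `|λ(p)| < 1` is not `O(x^c)`; for `n ≤ 3` the component `π_p` is tempered
  at these primes.

Equivalently: `n² / (2 n² - 1) = 1/2 + 1/(4 n² - 2)` is a lower bound for the abscissa of convergence `c` of the series,
and `θ_{φ,v} ≤ c / 2` at every place `v ≤ ∞`.

The structure `SphericalCuspForm` lists what is used of `φ`: the local components are unitary; the Rankin-Selberg
series converges absolutely for `Re s > 1`; `L(s, π × π~)` is entire except for a simple pole at `s = 1`, of polynomial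
growth in vertical strips, and it satisfies the functional equation (Jacquet, Piatetski-Shapiro, Shalika; Moeglin,
Waldspurger).

The proof: if the series converges at `c ≥ 1/2`, then Landau's lemma shows that `log (L(s, π × π~) / ζ(s))` is an
absolutely convergent Dirichlet series `D(s)` for `Re s > c`. So the local factors converge there, which gives
`θ_{φ,p} ≤ c/2`; and `L(s, π × π~) ≠ 0` for real `s > c`, but the Gamma factors force a zero at `s = 2 θ_{φ,∞}`. For
the exponent, put `N = n²` and integrate `L(1 - s, π × π~) exp((s - iT)² / D²)`, `D = T / log T`, along `Re s = -D`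
and along `Re s = σ > c`. The former integral is `≍ D`. By the functional equation the latter is an absolutely
convergent combination of integrals of `γ(s) ζ(s) exp(-λ s) exp((s - iT)² / D²)`, `λ ≥ 0`, `γ` a quotient of `N` Gamma
factors. We move each of these to `Re s = 1 + ε` if `exp λ ≥ T^{N - 1/2}`, and to `Re s = -ε` otherwise, there use the
functional equation of `ζ`, expand `ζ` and apply the second derivative test: it is `O(T^{(N - 1/2) σ - N/2 + 1 + ε})`.
So `(N - 1/2) σ ≥ N/2`.
-/

set_option autoImplicit false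

namespace Pool.Agent.Results.MP_fa98d2_nt.SmallEigenvaluesControl

open Pool.Agent.TH949.RES

/-- **Small Hecke eigenvalues of spherical cusp forms on `PGL_n`.** -/
theorem result {n : ℕ} (hn : 2 ≤ n) (α : Nat.Primes → Fin n → ℂ) (μ : Fin n → ℂ) (h : SphericalCuspForm α μ) (c : ℝ)
    (hc : c < (n : ℝ) ^ 2 / (2 * (n : ℝ) ^ 2 - 1) ∨
      (∃ (p : Nat.Primes) (i : Fin n), c < 2 * |Real.logb ((p : ℕ) : ℝ) ‖α p i‖|) ∨ ∃ i, c < 2 * |(μ i).re|) :
    (¬ Summable fun p : Nat.Primes => max 0 (1 - ‖∑ i, α p i‖ ^ 2) * ((p : ℕ) : ℝ) ^ (-c)) ∧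
    (∀ C X : ℝ, ∃ x : ℝ, X ≤ x ∧
      C * x ^ c < (({p : Nat.Primes | ((p : ℕ) : ℝ) ≤ x ∧ ‖∑ i, α p i‖ < 1}.ncard : ℕ) : ℝ)) ∧
    (n ≤ 3 → ∀ p, ‖∑ i, α p i‖ < 1 → ∀ i, ‖α p i‖ = 1) :=
  ⟨pgl_main' hn h hc, pgl_count hn h hc, fun hn3 p hp => tempered23 hn hn3 (h.ne_zero p) (h.unitary p) hp⟩

end Pool.Agent.Results.MP_fa98d2_nt.SmallEigenvaluesControl
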