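import Mathlib
import Pool.Agent.TH829.RA.Sym4

/-!
# Spherical cusp forms on `PGL(2)`: the Ramanujan conjecture at almost all primes, uniformly in the form

Let `φ` be a spherical cusp form on `PGL_2` over `ℚ` (a Maass cusp form of level one) with the eigenvalue
`1/4 + t²` of the Laplace operator and the Satake parameters `{a_p, 1 / a_p}`. Write
`p^{θ_{φ,p}} = max(|a_p|, 1 / |a_p|)`. We show, with constants `A` which depend on nothing in the first two
statements, and only on `θ` and `B` in the last one: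

* for every `X ≥ 3`: `∑_{p ≤ X} p^{8 θ_{φ,p} - 1} ≤ A (1 + log log X + log (1 + |t|))`;
* for every `θ ≤ 1/8` and `X ≥ 3` the number of the primes `p ≤ X` with `θ_{φ,p} ≥ θ` is at most
  `A (1 + log log X + log (1 + |t|)) X^{1 - 8 θ}`;
* for every `0 < θ ≤ 1/8` and `B > 1 / (8 θ)` there is a prime `p ≤ A (1 + log (1 + |t|))^B` with
  `θ_{φ,p} < θ`.

So already among the primes up to `(log (3 + |t|))^{1 / (8 θ) + ε}` the bound `|λ_φ(p)| < 2 p^θ` holds outside a thin
set, whatever the form, where the best bound for a single prime is `|λ_φ(p)| ≤ 2 p^{7/64}` (Kim, Sarnak). For a fixed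
form the use of the symmetric powers for densities is due to Serre and Kim-Shahidi.

Here `q_p = p` is the norm of the place `p`, `rad (α p) = p^{θ_{φ,p}}`, and the structure `MaassForm` lists what is used
of `φ`: the local components are unitary, and `Sym⁴ φ` is an automorphic representation of `GL_5` unramified at all
primes (Kim) which is cuspidal (Kim, Shahidi), so `L(s, Sym⁴ φ × Sym⁴ φ)` has the standard properties of a
Rankin-Selberg `L`-function (structure `RankinSelberg`; Jacquet, Piatetski-Shapiro, Shalika; Moeglin, Waldspurger),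
with conductor one, a simple pole at `s = 1` and the factor `∏_{j,k ≤ 4} Γ_ℝ(s + 2 i t (j - k))` at infinity. There are no
exceptional eigenvalues in level one, so `t` is real.

The proof: the functional equation and the Phragmén-Lindelöf principle give
`L(1 + δ, Sym⁴ φ × Sym⁴ φ) ≤ A (1 + |t|)^{50} / δ` for `0 < δ ≤ 1`, and the logarithm of the left-hand side is at least
`∑_p |λ_φ(p⁴)|² p^{-1-δ}`. If `|a_p| ≠ 1` then `a_p` is real and `|λ_φ(p⁴)| ≥ p^{4 θ_{φ,p}}`; take `δ = 1 / log X`.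
-/

set_option autoImplicit false

namespace Pool.Agent.Results.MP_fa98d2_nt.SymFourMean

open NumberField IsDedekindDomain Pool.Agent.TH861.GL3 Pool.Agent.TH829.RA

/-- **The Ramanujan conjecture at almost all primes, uniformly in the Maass form.** -/
theorem result :
    (∃ A : ℝ, 0 < A ∧ ∀ (t : ℝ) (α : PQ → Fin 2 → ℂ), MaassForm t α → ∀ X : ℝ, 3 ≤ X →
      (∀ F : Finset PQ, (∀ p ∈ F, (qq p.1 : ℝ) ≤ X) →
        ∑ p ∈ F, rad (α p) ^ 8 / (qq p.1 : ℝ) ≤
          A * (1 + Real.log (Real.log X) + Real.log (1 + |t|))) ∧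
      ∀ θ : ℝ, θ ≤ 1 / 8 →
        {p : PQ | (qq p.1 : ℝ) ≤ X ∧ (qq p.1 : ℝ) ^ θ ≤ rad (α p)}.Finite ∧
        (({p : PQ | (qq p.1 : ℝ) ≤ X ∧ (qq p.1 : ℝ) ^ θ ≤ rad (α p)}.ncard : ℕ) : ℝ) ≤
          A * (1 + Real.log (Real.log X) + Real.log (1 + |t|)) * X ^ (1 - 8 * θ)) ∧
    ∀ θ B : ℝ, 0 < θ → θ ≤ 1 / 8 → 1 / (8 * θ) < B →
      ∃ A : ℝ, 0 < A ∧ ∀ (t : ℝ) (α : PQ → Fin 2 → ℂ), MaassForm t α →
        ∃ p : PQ, (qq p.1 : ℝ) ≤ A * (1 + Real.log (1 + |t|)) ^ B ∧ rad (α p) < (qq p.1 : ℝ) ^ θ := by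
  have e8 : ∀ x : ℝ, (x ^ 4) ^ 2 = x ^ 8 := fun x => by rw [← pow_mul]
  have hset : ∀ (α : PQ → Fin 2 → ℂ) (θ : ℝ) (p : PQ),
      (qq p.1 : ℝ) ^ (4 * θ) ≤ rad (α p) ^ 4 ↔ (qq p.1 : ℝ) ^ θ ≤ rad (α p) := by
    intro α θ p
    have hq := qq_pos p.1
    have h0 : 0 ≤ (qq p.1 : ℝ) ^ θ := by positivity
    have h1 : (qq p.1 : ℝ) ^ (4 * θ) = ((qq p.1 : ℝ) ^ θ) ^ 4 := by
      rw [← Real.rpow_natCast, ← Real.rpow_mul hq.le]
      congr 1
      push_cast
      ring
    rw [h1]
    exact pow_le_pow_iff_left₀ h0 (rad_nonneg _) (by norm_num)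
  refine ⟨?_, fun θ B hθ0 hθ hB => ?_⟩
  · obtain ⟨A, hA, H⟩ := mertens_sym4
    refine ⟨A, hA, fun t α h X hX => ⟨fun F hF => ?_, fun θ hθ => ⟨fin_le X _, ?_⟩⟩⟩
    · have := H t α h X hX F hF
      simpa only [e8] using this
    · have hX1 : 1 ≤ X := by linarith
      have := count_of (m := 1) (R := fun v => rad (α v) ^ 4) (θ := 4 * θ) (by linarith) hX1 (fun F hF => by
        simpa using H t α h X hX F hF)
      simp only [hset] at this
      refine this.trans (le_of_eq ?_)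
      congr 2
      push_cast
      ring
  · obtain ⟨δ, hδ, hδ1, G⟩ := least_place ℚ (m := 1) (θ := 4 * θ) (B := B) (by linarith)
      (by push_cast; linarith) (by
        have : 1 - ((1 : ℕ) : ℝ) * (1 - 2 * (4 * θ)) = 8 * θ := by push_cast; ring
        rw [this]
        exact hB)
    obtain ⟨A, hA, H⟩ := mean_sym4
    have hl : 0 ≤ Real.log (1 / δ) := Real.log_nonneg (by rw [le_div_iff₀ hδ]; linarith)
    obtain ⟨A', hA', G'⟩ := G (A * (1 + Real.log (1 / δ))) (by positivity)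
    refine ⟨A', hA', fun t α h => ?_⟩
    obtain ⟨h1, h2⟩ := H δ hδ hδ1 t α h
    have hL : 0 ≤ Real.log (1 + |t|) := Real.log_nonneg (by linarith [abs_nonneg t])
    have hnn : ∀ v : PQ, 0 ≤ rad (α v) ^ 4 := fun v => by
      have := rad_nonneg (α v)
      positivity
    obtain ⟨v, hv1, hv2⟩ := G' ∅ (1 + Real.log (1 + |t|)) (by linarith) (by simp; linarith)
      (fun v => rad (α v) ^ 4) hnn (by simpa using h1) (by
        have h3 : ∑' v : PQ, ((rad (α v) ^ 4) ^ 2 / (qq v.1 : ℝ)) ^ 1 * (qq v.1 : ℝ) ^ (-δ) ≤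
          A * (1 + Real.log (1 / δ) + Real.log (1 + |t|)) := by simpa using h2
        refine h3.trans ?_
        rw [mul_assoc]
        refine mul_le_mul_of_nonneg_left ?_ hA.le
        nlinarith [mul_nonneg hl hL])
    refine ⟨v, hv1, ?_⟩
    rw [← not_le, ← hset, not_le]
    exact hv2

end Pool.Agent.Results.MP_fa98d2_nt.SymFourMean
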